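import Pool.Agent.Work.MP_2a0e18_al.Defs
import Pool.Agent.Work.MP_2a0e18_al.Main
import Mathlib.FieldTheory.IsAlgClosed.AlgebraicClosure
import Mathlib.Algebra.Field.ZMod

open Pool.Agent.Work.MP_2a0e18_al

/-- Q1 has a positive answer: a finite-dimensional Hopf algebra over a field with infinitely many
two-sided group-like projections. -/
theorem Pool.Agent.Work.MP_2a0e18_al.Parked.InfiniteProj.result :
    ∃ (k : Type) (_ : Field k) (A : Type) (_ : Ring A) (_ : HopfAlgebra k A),
      FiniteDimensional k A ∧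
      {P : A | IsRightGroupLikeProj k P ∧ IsLeftGroupLikeProj k P}.Infinite :=
  ⟨AlgebraicClosure (ZMod 2), inferInstance, U (AlgebraicClosure (ZMod 2)), inferInstance,
    inferInstance, inferInstance,
    infinite_set.mono fun _ h => ⟨⟨h.1, h.2.1, h.2.2.1, h.2.2.2.1⟩, ⟨h.1, h.2.1, h.2.2.2.2⟩⟩⟩
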